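import Pool.Agent.L7h26.TN.Stm

set_option autoImplicit false

/-!
# Project TN, part FIN: power saving for the exceptional set
-/

namespace Pool.Agent.L7h93.TN

open Polynomial
open Pool.Agent.L7h26.TN

theorem card_eq (p : ℕ → Prop) (s : Finset ℕ) (h : ∀ n, p n ↔ n ∈ s) :
    Nat.card {n : ℕ // p n} = s.card := by
  have e : {n : ℕ // p n} ≃ s := Equiv.subtypeEquivRight h
  rw [Nat.card_congr e, Nat.card_eq_fintype_card, Fintype.card_coe]

theorem r_of_Q (n : ℕ) (h : Q (n + 1) ∣ 3) : n + 1 ≤ 3 * r (n + 1) + 2 := by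
  have h1 : Q (n + 1) ≤ 3 := Nat.le_of_dvd (by norm_num) h
  have h2 : Q (n + 1) ≠ 0 := by
    intro h0
    rw [h0] at h
    simp at h
  have h3 : (n + 1) / 3 ≤ r (n + 1) := Nat.div_le_div_left h1 (Nat.pos_of_ne_zero h2)
  omega

open Classical in
theorem s_FIN (hD : S_DIV) (hE : S_EQN) (hC : S_CNT) (hQ : S_SQF) : S_FIN := by
  refine ⟨103, fun X hX => ?_⟩
  have hx : (1:ℝ) ≤ (X:ℝ) := by exact_mod_cast hX
  have hx0 : (0:ℝ) < (X:ℝ) := by linarith
  obtain ⟨R, hRdef⟩ : ∃ R : ℝ, R = (X:ℝ) ^ (1/16 : ℝ) := ⟨_, rfl⟩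
  obtain ⟨S0, hSdef⟩ : ∃ S0 : ℝ, S0 = (X:ℝ) ^ (1/4:ℝ) := ⟨_, rfl⟩
  obtain ⟨W, hWdef⟩ : ∃ W : ℝ, W = (X:ℝ) ^ (47/48:ℝ) := ⟨_, rfl⟩
  have hR1 : 1 ≤ R := by rw [hRdef]; exact Real.one_le_rpow hx (by norm_num)
  have hS1 : 1 ≤ S0 := by rw [hSdef]; exact Real.one_le_rpow hx (by norm_num)
  have hW1 : 1 ≤ W := by rw [hWdef]; exact Real.one_le_rpow hx (by norm_num)
  have hRW : R ≤ W := by
    rw [hRdef, hWdef]; exact Real.rpow_le_rpow_of_exponent_le hx (by norm_num)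
  have hRS : R ^ 4 = S0 := by
    rw [hRdef, hSdef, ← Real.rpow_natCast, ← Real.rpow_mul hx0.le]; norm_num
  have hRx : (X:ℝ) * R ^ (-(1/3):ℝ) = W := by
    rw [hRdef, hWdef, ← Real.rpow_mul hx0.le]
    nth_rewrite 1 [← Real.rpow_one (X:ℝ)]
    rw [← Real.rpow_add hx0]; norm_num
  have hWx : W ≤ (X:ℝ) := by
    rw [hWdef]
    calc (X:ℝ) ^ (47/48:ℝ) ≤ (X:ℝ) ^ (1:ℝ) := Real.rpow_le_rpow_of_exponent_le hx (by norm_num)
      _ = X := Real.rpow_one _
  have hS3 : S0 ^ 3 * (X:ℝ) ≤ W * W := by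
    rw [hSdef, hWdef, ← Real.rpow_natCast, ← Real.rpow_mul hx0.le, ← Real.rpow_add hx0]
    nth_rewrite 2 [← Real.rpow_one (X:ℝ)]
    rw [← Real.rpow_add hx0]
    exact Real.rpow_le_rpow_of_exponent_le hx (by norm_num)
  obtain ⟨Z, hZdef⟩ : ∃ Z : ℕ, Z = ⌈W⌉₊ := ⟨_, rfl⟩
  have hZ1 : 1 ≤ Z := by rw [hZdef]; exact Nat.one_le_ceil_iff.2 (by linarith)
  have hZW : W ≤ Z := by rw [hZdef]; exact Nat.le_ceil W
  have hZW2 : (Z:ℝ) ≤ 2 * W := by
    rw [hZdef]
    have := Nat.ceil_lt_add_one (show 0 ≤ W by linarith)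
    linarith
  have hZX : Z ≤ X := by rw [hZdef]; exact Nat.ceil_le.2 hWx
  -- the sets
  obtain ⟨B2, hB2⟩ : ∃ B : Finset ℕ, B = (Finset.range (X + 1)).filter (fun n => R < r (n + 1)) :=
    ⟨_, rfl⟩
  obtain ⟨B3, hB3⟩ : ∃ B : Finset ℕ, B = (Finset.range (X + 1)).filter
    (fun n => 1 ≤ n ∧ R < r n) := ⟨_, rfl⟩
  obtain ⟨B4, hB4⟩ : ∃ B : Finset ℕ, B = (Finset.range (X + 1)).filter
    (fun n => 2 ≤ n ∧ R < r (n - 1)) := ⟨_, rfl⟩
  obtain ⟨C, hCdef⟩ : ∃ C : ℕ × ℕ → Finset ℕ, C = fun q => if 0 < q.2 ∧ q.2 < q.1 then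
    (Finset.range (X + 1)).filter (fun n => Z ≤ n ∧ ∃ y : ℕ,
      y ^ 2 = q.1 * q.2 * (2 * n - 1) ^ 2 + q.1 * (9 * q.1 - q.2)) else ∅ := ⟨_, rfl⟩
  obtain ⟨m, hm⟩ : ∃ m : ℕ, m = ⌊S0⌋₊ := ⟨_, rfl⟩
  obtain ⟨B6, hB6⟩ : ∃ B : Finset ℕ, B =
    ((Finset.range (m + 1)) ×ˢ (Finset.range (m + 1))).biUnion C := ⟨_, rfl⟩
  -- cardinalities
  have c2 : (B2.card : ℝ) ≤ 8 * W := by
    have h1 := hQ (X + 1) R hR1
    rw [card_eq _ ((Finset.range (X + 2)).filter (fun N => 1 ≤ N ∧ R < r N)) (by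
      intro n
      simp only [Finset.mem_filter, Finset.mem_range]
      constructor
      · rintro ⟨a, b, c⟩; exact ⟨by omega, a, c⟩
      · rintro ⟨a, b, c⟩; exact ⟨b, by omega, c⟩)] at h1
    have h2 : B2.card ≤ ((Finset.range (X + 2)).filter (fun N => 1 ≤ N ∧ R < r N)).card := by
      apply Finset.card_le_card_of_injOn (fun n => n + 1)
      · intro n hn
        rw [hB2] at hn
        simp only [Finset.coe_filter, Finset.mem_range, Set.mem_setOf_eq] at hn ⊢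
        exact ⟨by omega, by omega, hn.2⟩
      · intro a _ b _ hab
        simpa using hab
    have h3 : (B2.card : ℝ) ≤ 4 * ((X + 1 : ℕ) : ℝ) * R ^ (-(1 / 3) : ℝ) :=
      le_trans (by exact_mod_cast h2) h1
    have h4 : 0 ≤ R ^ (-(1 / 3) : ℝ) := Real.rpow_nonneg (by linarith) _
    push_cast at h3
    nlinarith
  have c3 : (B3.card : ℝ) ≤ 4 * W := by
    have h1 := hQ X R hR1
    rw [card_eq _ B3 (by
      intro n
      rw [hB3]
      simp only [Finset.mem_filter, Finset.mem_range]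
      constructor
      · rintro ⟨a, b, c⟩; exact ⟨by omega, a, c⟩
      · rintro ⟨a, b, c⟩; exact ⟨b, by omega, c⟩)] at h1
    rw [mul_assoc, hRx] at h1
    exact h1
  have c4 : (B4.card : ℝ) ≤ 4 * W := by
    have h1 := hQ X R hR1
    rw [card_eq _ B3 (by
      intro n
      rw [hB3]
      simp only [Finset.mem_filter, Finset.mem_range]
      constructor
      · rintro ⟨a, b, c⟩; exact ⟨by omega, a, c⟩
      · rintro ⟨a, b, c⟩; exact ⟨b, by omega, c⟩)] at h1
    rw [mul_assoc, hRx] at h1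
    have h2 : B4.card ≤ B3.card := by
      apply Finset.card_le_card_of_injOn (fun n => n - 1)
      · intro n hn
        rw [hB4] at hn
        rw [hB3]
        simp only [Finset.coe_filter, Finset.mem_range, Set.mem_setOf_eq] at hn ⊢
        exact ⟨by omega, by omega, hn.2.2⟩
      · intro a ha b hb hab
        rw [hB4] at ha hb
        simp only [Finset.coe_filter, Finset.mem_range, Set.mem_setOf_eq] at ha hb hab
        omega
    exact le_trans (by exact_mod_cast h2) h1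
  have c6 : (B6.card : ℝ) ≤ 80 * W := by
    have hW0 : 0 < W := by linarith
    have hq : ∀ q ∈ (Finset.range (m + 1)) ×ˢ (Finset.range (m + 1)),
        ((C q).card : ℝ) ≤ 20 * S0 * X / W := by
      intro q hq
      rw [Finset.mem_product, Finset.mem_range, Finset.mem_range] at hq
      have hq1 : (q.1 : ℝ) ≤ S0 := by
        have h1 : q.1 ≤ ⌊S0⌋₊ := by omega
        exact le_trans (by exact_mod_cast h1) (Nat.floor_le (by linarith))
      rw [hCdef]
      by_cases h : 0 < q.2 ∧ q.2 < q.1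
      · simp only [if_pos h]
        have h1 := hC q.1 q.2 Z X h.1 h.2 hZ1 hZX
        rw [card_eq _ ((Finset.range (X + 1)).filter (fun n => Z ≤ n ∧ ∃ y : ℕ,
          y ^ 2 = q.1 * q.2 * (2 * n - 1) ^ 2 + q.1 * (9 * q.1 - q.2))) (by
          intro n
          simp only [Finset.mem_filter, Finset.mem_range]
          constructor
          · rintro ⟨a, b, c⟩; exact ⟨by omega, a, c⟩
          · rintro ⟨a, b, c⟩; exact ⟨b, by omega, c⟩)] at h1
        refine h1.trans ?_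
        have h2 : (20 : ℝ) * q.1 * X ≤ 20 * S0 * X := by nlinarith
        exact div_le_div₀ (by positivity) h2 hW0 hZW
      · simp only [if_neg h, Finset.card_empty, Nat.cast_zero]
        positivity
    have h1 : (B6.card : ℝ) ≤ ((m : ℝ) + 1) * ((m : ℝ) + 1) * (20 * S0 * X / W) := by
      rw [hB6]
      have h2 : ((((Finset.range (m + 1)) ×ˢ (Finset.range (m + 1))).biUnion C).card : ℝ) ≤
          ∑ q ∈ (Finset.range (m + 1)) ×ˢ (Finset.range (m + 1)), ((C q).card : ℝ) := by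
        exact_mod_cast Finset.card_biUnion_le
      refine h2.trans ((Finset.sum_le_sum hq).trans ?_)
      rw [Finset.sum_const, Finset.card_product, Finset.card_range, nsmul_eq_mul]
      push_cast
      exact le_refl _
    have h3 : (m : ℝ) + 1 ≤ 2 * S0 := by
      have : (m : ℝ) ≤ S0 := by rw [hm]; exact Nat.floor_le (by linarith)
      linarith
    have h4 : ((m : ℝ) + 1) * ((m : ℝ) + 1) ≤ (2 * S0) * (2 * S0) :=
      mul_le_mul h3 h3 (by positivity) (by linarith)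
    have h5 : 0 ≤ 20 * S0 * X / W := by positivity
    refine h1.trans ((mul_le_mul_of_nonneg_right h4 h5).trans ?_)
    rw [show 2 * S0 * (2 * S0) * (20 * S0 * X / W) = 80 * (S0 ^ 3 * X) / W by ring,
      div_le_iff₀ hW0]
    nlinarith
  -- the inclusion
  have hsub : (Finset.range (X + 1)).filter (fun n => Even n ∧ 4 ≤ n ∧
      ∃ F : ℤ[X], (Polynomial.X - 1) ^ 3 * F = S n ∧
        ¬ Irreducible (F.map (Int.castRingHom ℚ))) ⊆
      (((Finset.range Z ∪ B2) ∪ B3) ∪ (B4 ∪ Finset.range ⌊3 * R + 2⌋₊)) ∪ B6 := by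
    intro n hn
    simp only [Finset.mem_filter, Finset.mem_range] at hn
    obtain ⟨hnX, hev, hn4, F, hF, hirr⟩ := hn
    simp only [Finset.mem_union, Finset.mem_range]
    by_cases g1 : n < Z
    · exact Or.inl (Or.inl (Or.inl (Or.inl g1)))
    by_cases g2 : R < r (n + 1)
    · refine Or.inl (Or.inl (Or.inl (Or.inr ?_)))
      rw [hB2, Finset.mem_filter, Finset.mem_range]
      exact ⟨hnX, g2⟩
    by_cases g3 : R < r n
    · refine Or.inl (Or.inl (Or.inr ?_))
      rw [hB3, Finset.mem_filter, Finset.mem_range]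
      exact ⟨hnX, by omega, g3⟩
    by_cases g4 : R < r (n - 1)
    · refine Or.inl (Or.inr (Or.inl ?_))
      rw [hB4, Finset.mem_filter, Finset.mem_range]
      exact ⟨hnX, by omega, g4⟩
    push Not at g1 g2 g3 g4
    rcases hD n F hev hn4 hF hirr with h | ⟨d, d', h1, h2, h3, h4⟩
    · refine Or.inl (Or.inr (Or.inr ?_))
      have h5 := r_of_Q n h
      have h6 : ((n + 1 : ℕ) : ℝ) ≤ 3 * R + 2 := by
        have h7 : ((n + 1 : ℕ) : ℝ) ≤ ((3 * r (n + 1) + 2 : ℕ) : ℝ) := by exact_mod_cast h5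
        push_cast at h7 ⊢
        linarith
      have h8 : n + 1 ≤ ⌊3 * R + 2⌋₊ := Nat.le_floor h6
      omega
    · refine Or.inr ?_
      obtain ⟨T, y, k1, k2, k3⟩ := hE n d d' hn4 h1 h2 h3 h4
      rw [hB6, Finset.mem_biUnion]
      refine ⟨(r (n + 1) ^ 2 * r n * r (n - 1), T), ?_, ?_⟩
      · have h5 : r (n + 1) ^ 2 * r n * r (n - 1) ≤ m := by
          rw [hm]
          apply Nat.le_floor
          rw [← hRS]
          push_cast
          have e1 : (0:ℝ) ≤ r (n + 1) := Nat.cast_nonneg _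
          have e2 : (0:ℝ) ≤ r n := Nat.cast_nonneg _
          have e3 : (0:ℝ) ≤ r (n - 1) := Nat.cast_nonneg _
          calc (r (n + 1) : ℝ) ^ 2 * r n * r (n - 1) ≤ R ^ 2 * R * R := by gcongr
            _ = R ^ 4 := by ring
        rw [Finset.mem_product, Finset.mem_range, Finset.mem_range]
        exact ⟨by show _ < m + 1; omega, by show T < m + 1; omega⟩
      · rw [hCdef]
        simp only [if_pos (show 0 < T ∧ T < r (n + 1) ^ 2 * r n * r (n - 1) from ⟨k1, k2⟩),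
          Finset.mem_filter, Finset.mem_range]
        exact ⟨hnX, g1, y, k3⟩
  rw [card_eq _ ((Finset.range (X + 1)).filter (fun n => Even n ∧ 4 ≤ n ∧
      ∃ F : ℤ[X], (Polynomial.X - 1) ^ 3 * F = S n ∧
        ¬ Irreducible (F.map (Int.castRingHom ℚ)))) (by
      intro n
      simp only [Finset.mem_filter, Finset.mem_range]
      constructor
      · rintro ⟨a, b⟩; exact ⟨by omega, b⟩
      · rintro ⟨a, b⟩; exact ⟨by omega, b⟩)]
  have u0 := Finset.card_le_card hsub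
  have u1 := Finset.card_union_le (((Finset.range Z ∪ B2) ∪ B3) ∪
    (B4 ∪ Finset.range ⌊3 * R + 2⌋₊)) B6
  have u2 := Finset.card_union_le ((Finset.range Z ∪ B2) ∪ B3) (B4 ∪ Finset.range ⌊3 * R + 2⌋₊)
  have u3 := Finset.card_union_le (Finset.range Z ∪ B2) B3
  have u4 := Finset.card_union_le (Finset.range Z) B2
  have u5 := Finset.card_union_le B4 (Finset.range ⌊3 * R + 2⌋₊)
  rw [Finset.card_range] at u4 u5
  have u6 : (⌊3 * R + 2⌋₊ : ℝ) ≤ 3 * R + 2 := Nat.floor_le (by linarith)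
  have u7 : (((Finset.range (X + 1)).filter (fun n => Even n ∧ 4 ≤ n ∧
      ∃ F : ℤ[X], (Polynomial.X - 1) ^ 3 * F = S n ∧
        ¬ Irreducible (F.map (Int.castRingHom ℚ)))).card : ℝ) ≤
      (Z : ℝ) + B2.card + B3.card + (B4.card + ⌊3 * R + 2⌋₊) + B6.card := by
    exact_mod_cast (by omega : _ ≤ Z + B2.card + B3.card + (B4.card + ⌊3 * R + 2⌋₊) + B6.card)
  rw [← hWdef]
  linarith

end Pool.Agent.L7h93.TN
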